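import Pool.Agent.W425.GN.Defs2

/-! GN-F3: nondegeneracy for generic coefficients. -/

set_option autoImplicit false

namespace Pool.Agent.W683.GN

open MvPolynomial
open Pool.Agent.W425.SV (NP)
open Pool.Agent.W425.MM (NonD TaskGN2)
open Pool.Agent.W425.GN

/-- Nullstellensatz over `K` with zeros in the algebraic closure. -/
theorem nss {K : Type} [Field K] {σ τ : Type} [Fintype σ] [Fintype τ]
    (F : τ → MvPolynomial σ K)
    (h : ∀ x : σ → AlgebraicClosure K, ∃ i,
      eval₂Hom (algebraMap K (AlgebraicClosure K)) x (F i) ≠ 0) :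
    ∃ A : τ → MvPolynomial σ K, ∑ i, A i * F i = 1 := by
  by_contra hcon
  have h1 : Ideal.span (Set.range F) ≠ ⊤ := by
    intro h2
    rw [Ideal.eq_top_iff_one] at h2
    obtain ⟨A, hA⟩ := Ideal.mem_span_range_iff_exists_fun.1 h2
    exact hcon ⟨A, hA⟩
  obtain ⟨m, hm, hle⟩ := Ideal.exists_le_maximal _ h1
  let _ : Field (MvPolynomial σ K ⧸ m) := Ideal.Quotient.field m
  have hft : Algebra.FiniteType K (MvPolynomial σ K ⧸ m) :=
    Algebra.FiniteType.of_surjective (Ideal.Quotient.mkₐ K m) (Ideal.Quotient.mkₐ_surjective K m)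
  have hfin : Module.Finite K (MvPolynomial σ K ⧸ m) :=
    finite_of_finite_type_of_isJacobsonRing K (MvPolynomial σ K ⧸ m)
  have halg : Algebra.IsAlgebraic K (MvPolynomial σ K ⧸ m) :=
    Algebra.IsAlgebraic.of_finite K (MvPolynomial σ K ⧸ m)
  let ψ : (MvPolynomial σ K ⧸ m) →ₐ[K] AlgebraicClosure K := IsAlgClosed.lift
  let φ : MvPolynomial σ K →ₐ[K] AlgebraicClosure K := ψ.comp (Ideal.Quotient.mkₐ K m)
  obtain ⟨i, hi⟩ := h (fun s => φ (X s))
  apply hi
  have h2 : eval₂Hom (algebraMap K (AlgebraicClosure K)) (fun s => φ (X s)) (F i) = φ (F i) := by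
    have h3 : φ = aeval (fun s => φ (X s)) := MvPolynomial.aeval_unique φ
    conv_rhs => rw [h3]
    rfl
  rw [h2]
  show ψ (Ideal.Quotient.mk m (F i)) = 0
  rw [Ideal.Quotient.eq_zero_iff_mem.2 (hle (Ideal.subset_span ⟨i, rfl⟩)), map_zero]

theorem spec {r : ℕ} {σ τ : Type} [Fintype σ] [Fintype τ]
    (F : τ → MvPolynomial σ (MvPolynomial (Fin r) ℂ))
    (h : ∀ x : σ → AlgebraicClosure (FractionRing (MvPolynomial (Fin r) ℂ)), ∃ i,
      eval₂Hom ((algebraMap (FractionRing (MvPolynomial (Fin r) ℂ))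
        (AlgebraicClosure (FractionRing (MvPolynomial (Fin r) ℂ)))).comp
        (algebraMap (MvPolynomial (Fin r) ℂ) (FractionRing (MvPolynomial (Fin r) ℂ)))) x
        (F i) ≠ 0) :
    ∃ Z : Finset (FractionRing (MvPolynomial (Fin r) ℂ)), ∀ (a : Fin r → ℂ) (R : Type)
      (_ : CommRing R) (ι : R →+* FractionRing (MvPolynomial (Fin r) ℂ))
      (j : MvPolynomial (Fin r) ℂ →+* R) (e : R →+* ℂ), Function.Injective ι →
      (∀ z ∈ Z, ∃ y, ι y = z) →
      (∀ p, ι (j p) = algebraMap (MvPolynomial (Fin r) ℂ)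
        (FractionRing (MvPolynomial (Fin r) ℂ)) p) →
      (∀ p, e (j p) = eval a p) → ∀ x : σ → ℂ, ∃ i, eval₂Hom (eval a) x (F i) ≠ 0 := by
  classical
  obtain ⟨A, hA⟩ := nss (fun i => map (algebraMap (MvPolynomial (Fin r) ℂ)
    (FractionRing (MvPolynomial (Fin r) ℂ))) (F i)) (by
      intro x
      obtain ⟨i, hi⟩ := h x
      refine ⟨i, ?_⟩
      intro h0
      apply hi
      rw [← h0]
      simp only [coe_eval₂Hom]
      rw [eval₂_map])
  refine ⟨Finset.univ.biUnion fun i => (A i).coeffs, ?_⟩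
  intro a R _ ι j e hι hZ hj he x
  have hB : ∀ i, ∃ B : MvPolynomial σ R, map ι B = A i := by
    intro i
    have : A i ∈ Set.range (MvPolynomial.map ι) := by
      rw [MvPolynomial.mem_range_map_iff_coeffs_subset]
      intro z hz
      exact hZ z (Finset.mem_biUnion.2 ⟨i, Finset.mem_univ _, hz⟩)
    exact this
  choose B hB using hB
  have h1 : ∑ i, B i * map j (F i) = 1 := by
    apply MvPolynomial.map_injective ι hι
    rw [map_sum, map_one, ← hA]
    refine Finset.sum_congr rfl fun i _ => ?_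
    have hc : ι.comp j = algebraMap (MvPolynomial (Fin r) ℂ)
        (FractionRing (MvPolynomial (Fin r) ℂ)) := RingHom.ext hj
    rw [map_mul, hB, map_map, hc]
  by_contra hcon
  push Not at hcon
  have h2 : eval₂Hom e x (∑ i, B i * map j (F i)) = 0 := by
    rw [map_sum]
    refine Finset.sum_eq_zero fun i _ => ?_
    rw [map_mul]
    have h3 : eval₂Hom e x (map j (F i)) = eval₂Hom (eval a) x (F i) := by
      simp only [coe_eval₂Hom]
      rw [eval₂_map]
      congr 1
      exact RingHom.ext he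
    rw [h3, hcon i, mul_zero]
  rw [h1, map_one] at h2
  exact one_ne_zero h2

/-- The system attached to a face. -/
noncomputable def sys {R : Type} [CommRing R] {M N : ℕ} (m : Fin M → Fin N → ℕ) (c : Fin M → R)
    (φ : Finset (Fin M)) : Option (Option (Fin N)) → MvPolynomial (Option (Fin N)) R
  | none => X none * ∏ i, X (some i) - 1
  | some none => ∑ j ∈ φ, C (c j) * ∏ i, X (some i) ^ m j i
  | some (some i) => ∑ j ∈ φ, C (c j) *
      ((m j i : MvPolynomial (Option (Fin N)) R) * ∏ i, X (some i) ^ m j i)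

theorem sys_zero {R S : Type} [CommRing R] [CommRing S] (f : R →+* S) {M N : ℕ}
    (m : Fin M → Fin N → ℕ) (c : Fin M → R) (φ : Finset (Fin M)) (x : Option (Fin N) → S) :
    (∀ k, eval₂Hom f x (sys m c φ k) = 0) ↔
      (x none * ∏ i, x (some i) - 1 = 0 ∧
        ∑ j ∈ φ, f (c j) * ∏ i, x (some i) ^ m j i = 0 ∧
        ∀ i, ∑ j ∈ φ, f (c j) * ((m j i : S) * ∏ i, x (some i) ^ m j i) = 0) := by
  have e1 : eval₂Hom f x (sys m c φ none) = x none * ∏ i, x (some i) - 1 := by
    unfold sys
    rw [map_sub, map_mul, map_prod, map_one]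
    simp only [eval₂Hom_X']
  have e2 : eval₂Hom f x (sys m c φ (some none)) =
      ∑ j ∈ φ, f (c j) * ∏ i, x (some i) ^ m j i := by
    unfold sys
    rw [map_sum]
    refine Finset.sum_congr rfl fun j _ => ?_
    rw [map_mul, map_prod]
    simp only [map_pow, eval₂Hom_X', eval₂Hom_C]
  have e3 : ∀ i, eval₂Hom f x (sys m c φ (some (some i))) =
      ∑ j ∈ φ, f (c j) * ((m j i : S) * ∏ i, x (some i) ^ m j i) := by
    intro i
    unfold sys
    rw [map_sum]
    refine Finset.sum_congr rfl fun j _ => ?_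
    rw [map_mul, map_mul, map_prod, map_natCast]
    simp only [map_pow, eval₂Hom_X', eval₂Hom_C]
  constructor
  · intro h
    refine ⟨?_, ?_, fun i => ?_⟩
    · rw [← e1]; exact h _
    · rw [← e2]; exact h _
    · rw [← e3]; exact h _
  · rintro ⟨h1, h2, h3⟩ (_ | (_ | i))
    · rw [e1]; exact h1
    · rw [e2]; exact h2
    · rw [e3]; exact h3 i

theorem f3 : TaskF3 := by
  intro hGN hF2 r q N v w h hr hNP
  classical
  set m := Fin.append v w with hm
  set c : Fin (r + q) → MvPolynomial (Fin r) ℂ :=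
    Fin.append (fun j => X j) (fun l => C (h l)) with hc
  set f : MvPolynomial (Fin r) ℂ →+* AlgebraicClosure (FractionRing (MvPolynomial (Fin r) ℂ)) :=
    (algebraMap (FractionRing (MvPolynomial (Fin r) ℂ))
      (AlgebraicClosure (FractionRing (MvPolynomial (Fin r) ℂ)))).comp
      (algebraMap (MvPolynomial (Fin r) ℂ) (FractionRing (MvPolynomial (Fin r) ℂ))) with hf
  have hfinj : Function.Injective f := by
    rw [hf]
    exact (algebraMap (FractionRing (MvPolynomial (Fin r) ℂ))
      (AlgebraicClosure (FractionRing (MvPolynomial (Fin r) ℂ)))).injective.comp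
      (IsFractionRing.injective (MvPolynomial (Fin r) ℂ) (FractionRing (MvPolynomial (Fin r) ℂ)))
  have key : ∀ φ : Finset (Fin (r + q)), ∃ Z : Finset (FractionRing (MvPolynomial (Fin r) ℂ)),
      (∀ x : Option (Fin N) → AlgebraicClosure (FractionRing (MvPolynomial (Fin r) ℂ)), ∃ k,
        eval₂Hom f x (sys m c φ k) ≠ 0) →
      ∀ (a : Fin r → ℂ) (R : Type)
      (_ : CommRing R) (ι : R →+* FractionRing (MvPolynomial (Fin r) ℂ))
      (j : MvPolynomial (Fin r) ℂ →+* R) (e : R →+* ℂ), Function.Injective ι →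
      (∀ z ∈ Z, ∃ y, ι y = z) →
      (∀ p, ι (j p) = algebraMap (MvPolynomial (Fin r) ℂ)
        (FractionRing (MvPolynomial (Fin r) ℂ)) p) →
      (∀ p, e (j p) = eval a p) → ∀ x : Option (Fin N) → ℂ, ∃ k,
        eval₂Hom (eval a) x (sys m c φ k) ≠ 0 := by
    intro φ
    by_cases hφ : ∀ x : Option (Fin N) → AlgebraicClosure (FractionRing (MvPolynomial (Fin r) ℂ)),
        ∃ k, eval₂Hom f x (sys m c φ k) ≠ 0
    · obtain ⟨Z, hZ⟩ := spec (sys m c φ) hφ
      exact ⟨Z, fun _ => hZ⟩
    · exact ⟨∅, fun h => absurd h hφ⟩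
  choose Z hZ using key
  obtain ⟨g, hg0, hg⟩ := hF2 (Finset.univ.biUnion Z)
  refine ⟨g, hg0, fun a ha u z hz hsum => ?_⟩
  obtain ⟨R, _, ι, j, e, hι, hz2, hj, he⟩ := hg a ha
  by_contra hcon
  push Not at hcon
  have hsumf : ∀ {S : Type} [CommRing S] (t : Fin (r + q) → S),
      ∑ j ∈ Finset.univ.filter (fun j => Pool.Agent.W426.SM.face m u j), t j =
        ∑ j, if Pool.Agent.W426.SM.face m u j then t j else 0 := by
    intro S _ t
    rw [Finset.sum_filter]
  have hno : ∀ x : Option (Fin N) → AlgebraicClosure (FractionRing (MvPolynomial (Fin r) ℂ)),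
      ∃ k, eval₂Hom f x (sys m c (Finset.univ.filter
        (fun j => Pool.Agent.W426.SM.face m u j)) k) ≠ 0 := by
    intro x
    by_contra hx
    push Not at hx
    rw [sys_zero] at hx
    obtain ⟨h1, h2, h3⟩ := hx
    let _ : Algebra ℂ (AlgebraicClosure (FractionRing (MvPolynomial (Fin r) ℂ))) :=
      (f.comp C).toAlgebra
    have hai : AlgebraicIndependent ℂ (fun j : Fin r => f (X j)) := by
      unfold AlgebraicIndependent
      have : (aeval (fun j : Fin r => f (X j)) : MvPolynomial (Fin r) ℂ →ₐ[ℂ] _).toRingHom = f := by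
        apply MvPolynomial.ringHom_ext
        · intro t
          show aeval (fun j : Fin r => f (X j)) (C t) = f (C t)
          rw [aeval_C]
          rfl
        · intro i
          show aeval (fun j : Fin r => f (X j)) (X i) = f (X i)
          rw [aeval_X]
      intro p p' hp
      apply hfinj
      rw [← this]
      exact hp
    have hnd := hGN (F := ℂ) (L := AlgebraicClosure (FractionRing (MvPolynomial (Fin r) ℂ)))
      v w (fun j => f (X j)) h hr hai hNP
    have happ : Fin.append (fun j : Fin r => f (X j))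
        (fun l => algebraMap ℂ (AlgebraicClosure (FractionRing (MvPolynomial (Fin r) ℂ))) (h l)) =
        fun i => f (c i) := by
      funext i
      refine Fin.addCases (fun i => ?_) (fun i => ?_) i
      · rw [hc, Fin.append_left, Fin.append_left]
      · rw [hc, Fin.append_right, Fin.append_right]
        rfl
    rw [happ, ← hm] at hnd
    have hne : ∀ i, x (some i) ≠ 0 := by
      intro i h0
      have : ∏ i, x (some i) = 0 := Finset.prod_eq_zero (Finset.mem_univ i) h0
      rw [this, mul_zero, zero_sub] at h1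
      exact one_ne_zero (neg_eq_zero.1 h1)
    obtain ⟨i, hi⟩ := hnd u (fun i => x (some i)) hne (by
      rw [hsumf] at h2
      refine Eq.trans (Finset.sum_congr rfl fun j _ => ?_) h2
      by_cases hj : Pool.Agent.W426.SM.face m u j
      · simp only [if_pos hj]
      · simp only [if_neg hj])
    apply hi
    have h3i := h3 i
    rw [hsumf] at h3i
    refine Eq.trans (Finset.sum_congr rfl fun j _ => ?_) h3i
    by_cases hj : Pool.Agent.W426.SM.face m u j
    · simp only [if_pos hj]
    · simp only [if_neg hj]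
  obtain ⟨k, hk⟩ := hZ _ hno a R _ ι j e hι (fun z hz => hz2 z
    (Finset.mem_biUnion.2 ⟨_, Finset.mem_univ _, hz⟩)) hj he
    (fun o => o.elim (∏ i, z i)⁻¹ z)
  apply hk
  have happ : ∀ i, eval a (c i) = Fin.append a h i := by
    intro i
    refine Fin.addCases (fun i => ?_) (fun i => ?_) i
    · rw [hc, Fin.append_left, Fin.append_left, eval_X]
    · rw [hc, Fin.append_right, Fin.append_right, eval_C]
  refine (sys_zero (eval a) m c _ _).2 ⟨?_, ?_, ?_⟩ k
  · show (∏ i, z i)⁻¹ * ∏ i, z i - 1 = 0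
    rw [inv_mul_cancel₀ (Finset.prod_ne_zero_iff.2 fun i _ => hz i), sub_self]
  · rw [hsumf]
    refine Eq.trans (Finset.sum_congr rfl fun j _ => ?_) hsum
    by_cases hj : Pool.Agent.W426.SM.face m u j
    · rw [if_pos hj, if_pos hj, happ]
      rfl
    · rw [if_neg hj, if_neg hj]
  · intro i
    rw [hsumf]
    refine Eq.trans (Finset.sum_congr rfl fun j _ => ?_) (hcon i)
    by_cases hj : Pool.Agent.W426.SM.face m u j
    · rw [if_pos hj, if_pos hj, happ]
      rfl
    · rw [if_neg hj, if_neg hj]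

end Pool.Agent.W683.GN
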